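import Pool.Agent.Lib.PolyTime.Bin

/-!
# From numeric labels to bit strings

If every vertex of an `n`-vertex graph gets `m` numbers `≤ n` such that adjacency is a fixed Boolean function of the
comparisons of the numbers of the two vertices, then there are labels of `O(log n)` bits and a polynomial-time decoder.
-/

namespace Pool.Agent.ImpR

open Pool.Agent.Lib.PT

/-- the comparisons `x i ≤ y j` -/
def cmp {m : ℕ} (x y : Fin m → ℕ) : Fin m → Fin m → Bool := fun i j => decide (x i ≤ y j)

/-- number of leading `true`s -/
def lead (x : List Bool) : ℕ := x.foldr (fun b acc => bif b then acc + 1 else 0) 0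

theorem lead_eq (w : ℕ) (r : List Bool) : lead (List.replicate w true ++ false :: r) = w := by
  induction w with
  | zero => simp [lead]
  | succ w ih =>
    rw [List.replicate_succ, List.cons_append]
    unfold lead at ih ⊢
    rw [List.foldr_cons, ih]
    rfl

/-- the `i`-th block -/
def fld (i : ℕ) (x : List Bool) : List Bool := (x.drop (lead x + 1 + i * lead x)).take (lead x)

theorem flatten_block (w : ℕ) (L : List (List Bool)) (hL : ∀ b ∈ L, b.length = w) :
    ∀ i (hi : i < L.length), (L.flatten.drop (i * w)).take w = L[i] := by
  induction L with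
  | nil => intro i hi; simp at hi
  | cons b L ih =>
    intro i hi
    have hb : b.length = w := hL b (by simp)
    cases i with
    | zero =>
      rw [Nat.zero_mul, List.drop_zero, List.flatten_cons, List.getElem_cons_zero]
      rw [← hb, List.take_left]
    | succ i =>
      rw [List.flatten_cons, List.getElem_cons_succ]
      have h1 : (i + 1) * w = b.length + i * w := by rw [hb]; ring
      rw [h1, ← List.drop_drop, List.drop_left]
      exact ih (fun c hc => hL c (by simp [hc])) i (by simpa using hi)

/-- the label of width `w` with the numbers `N i`, `i < m` -/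
def lab (m w : ℕ) (N : ℕ → ℕ) : List Bool :=
  List.replicate w true ++ false :: ((List.range m).map (fun i => bpad w (N i).bits)).flatten

theorem bits_length {w a : ℕ} (h : a < 2 ^ w) : (bpad w a.bits).length = w := by
  apply length_bpad
  rw [Nat.size_eq_bits_len]
  exact Nat.size_le.2 h

theorem fld_lab {m w : ℕ} {N : ℕ → ℕ} (hN : ∀ i < m, N i < 2 ^ w) {i : ℕ} (hi : i < m) :
    bval (fld i (lab m w N)) = N i := by
  have h0 : lead (lab m w N) = w := lead_eq _ _
  unfold fld
  rw [h0]
  have h1 : (lab m w N).drop (w + 1 + i * w) =
      ((List.range m).map (fun i => bpad w (N i).bits)).flatten.drop (i * w) := by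
    unfold lab
    rw [← List.drop_drop]
    congr 1
    have : w + 1 = (List.replicate w true).length + 1 := by simp
    rw [this, ← List.drop_drop, List.drop_left]
    rfl
  rw [h1]
  have hL : ∀ b ∈ (List.range m).map (fun i => bpad w (N i).bits), b.length = w := by
    intro b hb
    obtain ⟨j, hj, rfl⟩ := List.mem_map.1 hb
    exact bits_length (hN j (List.mem_range.1 hj))
  rw [flatten_block w _ hL i (by simpa using hi)]
  rw [List.getElem_map, List.getElem_range, bval_bpad, bval_bits]

theorem length_lab {m w : ℕ} {N : ℕ → ℕ} (hN : ∀ i < m, N i < 2 ^ w) :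
    (lab m w N).length = w + 1 + m * w := by
  have h : ((List.range m).map (fun i => bpad w (N i).bits)).flatten.length = m * w := by
    rw [List.length_flatten, List.map_map]
    have : (List.range m).map (List.length ∘ fun i => bpad w (N i).bits) =
        (List.range m).map (fun _ => w) := by
      apply List.map_congr_left
      intro i hi
      exact bits_length (hN i (List.mem_range.1 hi))
    rw [this]
    simp
  unfold lab
  rw [List.length_append, List.length_cons, List.length_replicate, h]
  ring

/-! ### Polynomial time -/

theorem polyTime_lead {α : Type*} [Enc α] {f : α → List Bool} (hf : PolyTime f) :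
    PolyTime (fun a => lead (f a)) := by
  refine PolyTime.foldr_add' (f := fun (_ : α) (b : Bool) (acc : ℕ) => bif b then acc + 1 else 0)
    hf (PolyTime.const 0) ?_ ?_
  · exact PolyTime.cond PolyTime.id.snd.fst PolyTime.id.snd.snd.succ (PolyTime.const 0)
  · refine ⟨Polynomial.C 2, fun a x y => ?_⟩
    rw [Polynomial.eval_C]
    cases y
    · show sz (0 : ℕ) ≤ _
      have := sz_pos x
      simp [sz]
    · show sz (x + 1) ≤ _
      simp only [sz, enc_nat_succ, T.size_cons, T.size_nil]
      omega

theorem polyTime_fld (i : ℕ) {α : Type*} [Enc α] {f : α → List Bool} (hf : PolyTime f) :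
    PolyTime (fun a => fld i (f a)) := by
  have h := polyTime_lead hf
  exact PolyTime.take h (PolyTime.drop ((h.add (PolyTime.const 1)).add
    ((PolyTime.const i).mul h)) hf)

/-- A fixed Boolean function of finitely many polynomial-time Booleans. -/
theorem polyTime_boolean {α : Type*} [Enc α] : ∀ (s : ℕ) (F : (Fin s → Bool) → Bool)
    (g : Fin s → α → Bool), (∀ i, PolyTime (g i)) → PolyTime (fun a => F (fun i => g i a)) := by
  intro s
  induction s with
  | zero =>
    intro F g _
    refine (PolyTime.const (F (fun i => i.elim0))).congr fun a => ?_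
    congr 1
    funext i
    exact i.elim0
  | succ s ih =>
    intro F g hg
    have h1 := ih (fun v => F (Fin.cons true v)) (fun i => g i.succ) (fun i => hg _)
    have h2 := ih (fun v => F (Fin.cons false v)) (fun i => g i.succ) (fun i => hg _)
    refine (PolyTime.cond (hg 0) h1 h2).congr fun a => ?_
    have key : (fun i => g i a) = Fin.cons (g 0 a) (fun i : Fin s => g i.succ a) := by
      funext i
      refine Fin.cases ?_ (fun j => ?_) i
      · rfl
      · rfl
    rw [key]
    cases g 0 a <;> rfl

/-- a Boolean function of a matrix of polynomial-time Booleans and of another one -/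
theorem polyTime_boolean₂ {α : Type*} [Enc α] {m : ℕ}
    (D : (Fin m → Fin m → Bool) → (Fin m → Fin m → Bool) → Bool)
    (g h : Fin m → Fin m → α → Bool) (hg : ∀ i j, PolyTime (g i j)) (hh : ∀ i j, PolyTime (h i j)) :
    PolyTime (fun a => D (fun i j => g i j a) (fun i j => h i j a)) := by
  have e : Fin (m * m + m * m) ≃ (Fin m × Fin m) ⊕ (Fin m × Fin m) :=
    finSumFinEquiv.symm.trans (Equiv.sumCongr finProdFinEquiv.symm finProdFinEquiv.symm)
  have key := polyTime_boolean (m * m + m * m)
    (fun v => D (fun i j => v (e.symm (Sum.inl (i, j)))) (fun i j => v (e.symm (Sum.inr (i, j)))))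
    (fun t => match e t with
      | Sum.inl q => g q.1 q.2
      | Sum.inr q => h q.1 q.2) (by
        intro t
        cases e t with
        | inl q => exact hg _ _
        | inr q => exact hh _ _)
  refine key.congr fun a => ?_
  simp only [Equiv.apply_symm_apply]

/-- From numeric labels to bit strings with a polynomial-time decoder. -/
theorem implicit_of_numeric {m : ℕ}
    (D : (Fin m → Fin m → Bool) → (Fin m → Fin m → Bool) → Bool) :
    ∃ (A : List Bool → List Bool → Bool) (K : ℕ),
      PolyTime (fun p : List Bool × List Bool => A p.1 p.2) ∧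
      ∀ (V : Type) [Fintype V] (N : V → Fin m → ℕ), (∀ v i, N v i ≤ Fintype.card V) →
        ∃ l : V → List Bool, (∀ v, (l v).length ≤ K * Nat.log 2 (Fintype.card V)) ∧
          ∀ u v, u ≠ v → A (l u) (l v) = D (cmp (N u) (N v)) (cmp (N v) (N u)) := by
  refine ⟨fun x y => D (fun i j => ble (fld i x) (fld j y)) (fun i j => ble (fld i y) (fld j x)),
    2 * (m + 2), ?_, ?_⟩
  · exact polyTime_boolean₂ D (fun i j (p : List Bool × List Bool) => ble (fld i p.1) (fld j p.2))
      (fun i j (p : List Bool × List Bool) => ble (fld i p.2) (fld j p.1))
      (fun i j => PolyTime.ble (polyTime_fld _ PolyTime.id.fst) (polyTime_fld _ PolyTime.id.snd))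
      (fun i j => PolyTime.ble (polyTime_fld _ PolyTime.id.snd) (polyTime_fld _ PolyTime.id.fst))
  · intro V _ N hN
    set n := Fintype.card V with hn
    by_cases h2 : n < 2
    · refine ⟨fun _ => [], fun v => by simp, fun u v huv => ?_⟩
      exact absurd (Fintype.card_le_one_iff.1 (by omega) u v) huv
    · push Not at h2
      set w := Nat.size n with hw
      let M : V → ℕ → ℕ := fun v i => if h : i < m then N v ⟨i, h⟩ else 0
      have hM : ∀ v, ∀ i < m, M v i < 2 ^ w := by
        intro v i hi
        have h1 : M v i = N v ⟨i, hi⟩ := by simp [M, hi]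
        rw [h1]
        exact (hN v _).trans_lt (Nat.lt_size_self n)
      have hfld : ∀ v (i : Fin m), bval (fld i (lab m w (M v))) = N v i := by
        intro v i
        rw [fld_lab (hM v) i.2]
        simp [M]
      refine ⟨fun v => lab m w (M v), fun v => ?_, fun u v _ => ?_⟩
      · rw [length_lab (hM v)]
        have h3 : w ≤ Nat.log 2 n + 1 := by
          rw [hw, Nat.size_le]
          exact Nat.lt_pow_succ_log_self (by norm_num) n
        have h4 : 1 ≤ Nat.log 2 n := Nat.log_pos (by norm_num) h2
        have h5 : w ≤ 2 * Nat.log 2 n := by omega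
        have h6 : m * w ≤ m * (2 * Nat.log 2 n) := Nat.mul_le_mul_left _ h5
        nlinarith
      · show D _ _ = D _ _
        congr 1
        · funext i j
          rw [ble_eq, hfld, hfld]
          rfl
        · funext i j
          rw [ble_eq, hfld, hfld]
          rfl

end Pool.Agent.ImpR
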