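import Pool.Agent.ImpR.Bits

/-!
# Implicit representations from intervals

A set of vertices is placed on `c` lines (curve index and parameter); every vertex sees on each curve a union of at
most `r` intervals, and two vertices outside of this set are adjacent.
-/

namespace Pool.Agent.ImpR

open Pool.Agent.Lib.PT Finset

/-- `implicit_of_numeric` with an arbitrary finite set of fields -/
theorem implicit_of_fields {ι : Type} [Fintype ι]
    (D : (ι → ι → Bool) → (ι → ι → Bool) → Bool) :
    ∃ (A : List Bool → List Bool → Bool) (K : ℕ),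
      PolyTime (fun p : List Bool × List Bool => A p.1 p.2) ∧
      ∀ (V : Type) [Fintype V] (N : V → ι → ℕ), (∀ v i, N v i ≤ Fintype.card V) →
        ∃ l : V → List Bool, (∀ v, (l v).length ≤ K * Nat.log 2 (Fintype.card V)) ∧
          ∀ u v, u ≠ v → A (l u) (l v) = D (fun i j => decide (N u i ≤ N v j))
            (fun i j => decide (N v i ≤ N u j)) := by
  obtain ⟨A, K, hA, h⟩ := implicit_of_numeric (m := Fintype.card ι)
    (fun P Q => D (fun i j => P (Fintype.equivFin ι i) (Fintype.equivFin ι j))
      (fun i j => Q (Fintype.equivFin ι i) (Fintype.equivFin ι j)))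
  refine ⟨A, K, hA, fun V _ N hN => ?_⟩
  obtain ⟨l, hl, h2⟩ := h V (fun v i => N v ((Fintype.equivFin ι).symm i)) (fun v i => hN v _)
  refine ⟨l, hl, fun u v huv => ?_⟩
  rw [h2 u v huv]
  simp only [cmp, Equiv.symm_apply_apply]

/-- the fields: zero, side, ranks, lower ends, upper ends -/
inductive Fld (c r : ℕ) : Type
  | zero : Fld c r
  | side : Fld c r
  | rank : Fin c → Fld c r
  | lo : Fin c → Fin r → Fld c r
  | hi : Fin c → Fin r → Fld c r
  deriving DecidableEq

instance (c r : ℕ) : Fintype (Fld c r) :=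
  Fintype.ofSurjective (fun x : (Bool ⊕ Fin c) ⊕ (Fin c × Fin r × Bool) => match x with
    | Sum.inl (Sum.inl false) => Fld.zero
    | Sum.inl (Sum.inl true) => Fld.side
    | Sum.inl (Sum.inr i) => Fld.rank i
    | Sum.inr (i, j, false) => Fld.lo i j
    | Sum.inr (i, j, true) => Fld.hi i j) (by
      intro y
      cases y with
      | zero => exact ⟨Sum.inl (Sum.inl false), rfl⟩
      | side => exact ⟨Sum.inl (Sum.inl true), rfl⟩
      | rank i => exact ⟨Sum.inl (Sum.inr i), rfl⟩
      | lo i j => exact ⟨Sum.inr (i, j, false), rfl⟩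
      | hi i j => exact ⟨Sum.inr (i, j, true), rfl⟩)

/-- the decoder on the comparisons -/
def dec (c r : ℕ) (P Q : Fld c r → Fld c r → Bool) : Bool :=
  if Q Fld.side Fld.zero = false then
    decide (∃ i j, P (Fld.lo i j) (Fld.rank i) = true ∧ Q (Fld.rank i) (Fld.hi i j) = true)
  else if P Fld.side Fld.zero = false then
    decide (∃ i j, Q (Fld.lo i j) (Fld.rank i) = true ∧ P (Fld.rank i) (Fld.hi i j) = true)
  else true

section

variable {V : Type} [Fintype V] {c r : ℕ} (κ : V → Option (Fin c)) (τ : V → ℝ)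
  (I : V → Fin c → Fin r → Set ℝ)

open Classical in
/-- the rank of a vertex on its curve, from `1` on -/
noncomputable def rk (v : V) : ℕ := 1 + (univ.filter (fun w => κ w = κ v ∧ τ w < τ v)).card

open Classical in
/-- the vertices on the curve `i` in the `j`-th interval of `u` -/
noncomputable def nb (u : V) (i : Fin c) (j : Fin r) : Finset V :=
  univ.filter (fun w => κ w = some i ∧ τ w ∈ I u i j)

open Classical in
/-- the fields of a vertex -/
noncomputable def num (v : V) : Fld c r → ℕ
  | Fld.zero => 0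
  | Fld.side => if κ v = none then 0 else 1
  | Fld.rank i => if κ v = some i then rk κ τ v else 0
  | Fld.lo i j => if h : (nb κ τ I v i j).Nonempty then (nb κ τ I v i j).inf' h (rk κ τ) else 1
  | Fld.hi i j => (nb κ τ I v i j).sup (rk κ τ)

theorem rk_le (v : V) : rk κ τ v ≤ Fintype.card V := by
  classical
  unfold rk
  have h : (univ.filter (fun w => κ w = κ v ∧ τ w < τ v)) ⊆ univ.erase v := by
    intro w hw
    rw [Finset.mem_filter] at hw
    rw [Finset.mem_erase]
    refine ⟨?_, Finset.mem_univ _⟩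
    rintro rfl
    exact lt_irrefl _ hw.2.2
  have h2 := Finset.card_le_card h
  have h3 : (univ.erase v).card + 1 = Fintype.card V := by
    rw [Finset.card_erase_add_one (Finset.mem_univ v), Finset.card_univ]
  omega

theorem rk_pos (v : V) : 1 ≤ rk κ τ v := by unfold rk; omega

theorem rk_lt {v w : V} (h : κ v = κ w) (hlt : τ v < τ w) : rk κ τ v < rk κ τ w := by
  classical
  unfold rk
  have : (univ.filter (fun x => κ x = κ v ∧ τ x < τ v)) ⊂
      (univ.filter (fun x => κ x = κ w ∧ τ x < τ w)) := by
    rw [Finset.ssubset_iff_of_subset]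
    · refine ⟨v, ?_, ?_⟩
      · simp [h, hlt]
      · simp
    · intro x hx
      rw [Finset.mem_filter] at hx ⊢
      exact ⟨Finset.mem_univ _, hx.2.1.trans h, hx.2.2.trans hlt⟩
  have := Finset.card_lt_card this
  omega

theorem num_le (v : V) (f : Fld c r) : num κ τ I v f ≤ Fintype.card V := by
  classical
  have h1 : 1 ≤ Fintype.card V := Fintype.card_pos_iff.2 ⟨v⟩
  cases f with
  | zero => exact Nat.zero_le _
  | side =>
    show (if κ v = none then 0 else 1) ≤ _
    split_ifs <;> omega
  | rank i =>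
    show (if κ v = some i then rk κ τ v else 0) ≤ _
    split_ifs
    · exact rk_le κ τ v
    · omega
  | lo i j =>
    show (if h : (nb κ τ I v i j).Nonempty then (nb κ τ I v i j).inf' h (rk κ τ) else 1) ≤ _
    split_ifs with h
    · obtain ⟨w, hw, h2⟩ := Finset.exists_mem_eq_inf' h (rk κ τ)
      rw [h2]
      exact rk_le κ τ w
    · exact h1
  | hi i j =>
    show (nb κ τ I v i j).sup (rk κ τ) ≤ _
    exact Finset.sup_le fun w _ => rk_le κ τ w

theorem mem_iff (hI : ∀ u i j, (I u i j).OrdConnected) {u v : V} {i : Fin c} (hv : κ v = some i)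
    (j : Fin r) : τ v ∈ I u i j ↔
      num κ τ I u (Fld.lo i j) ≤ rk κ τ v ∧ rk κ τ v ≤ num κ τ I u (Fld.hi i j) := by
  classical
  have elo : num κ τ I u (Fld.lo i j) = if h : (nb κ τ I u i j).Nonempty then
      (nb κ τ I u i j).inf' h (rk κ τ) else 1 := rfl
  have ehi : num κ τ I u (Fld.hi i j) = (nb κ τ I u i j).sup (rk κ τ) := rfl
  rw [elo, ehi]
  constructor
  · intro h
    have hmem : v ∈ nb κ τ I u i j := by
      unfold nb
      rw [Finset.mem_filter]
      exact ⟨Finset.mem_univ _, hv, h⟩
    have hne : (nb κ τ I u i j).Nonempty := ⟨v, hmem⟩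
    rw [dif_pos hne]
    exact ⟨Finset.inf'_le _ hmem, Finset.le_sup (f := rk κ τ) hmem⟩
  · rintro ⟨h1, h2⟩
    have hne : (nb κ τ I u i j).Nonempty := by
      by_contra hcon
      rw [Finset.not_nonempty_iff_eq_empty] at hcon
      rw [hcon, Finset.sup_empty] at h2
      have := rk_pos κ τ v
      have h3 : (⊥ : ℕ) = 0 := rfl
      omega
    rw [dif_pos hne] at h1
    obtain ⟨w1, hw1, e1⟩ := Finset.exists_mem_eq_inf' hne (rk κ τ)
    obtain ⟨w2, hw2, e2⟩ := Finset.exists_mem_eq_sup _ hne (rk κ τ)
    rw [e1] at h1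
    rw [e2] at h2
    unfold nb at hw1 hw2
    rw [Finset.mem_filter] at hw1 hw2
    have a1 : τ w1 ≤ τ v := by
      by_contra hlt
      have := rk_lt κ τ (hv.trans hw1.2.1.symm) (not_le.1 hlt)
      omega
    have a2 : τ v ≤ τ w2 := by
      by_contra hlt
      have := rk_lt κ τ (hw2.2.1.trans hv.symm) (not_le.1 hlt)
      omega
    exact (hI u i j).out hw1.2.2 hw2.2.2 ⟨a1, a2⟩

end

/-- Implicit representation from intervals. -/
theorem implicit_of_intervals (c r : ℕ) :
    ∃ (A : List Bool → List Bool → Bool) (K : ℕ),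
      PolyTime (fun p : List Bool × List Bool => A p.1 p.2) ∧
      ∀ (V : Type) [Fintype V] (G : SimpleGraph V) (κ : V → Option (Fin c)) (τ : V → ℝ)
        (I : V → Fin c → Fin r → Set ℝ), (∀ u i j, (I u i j).OrdConnected) →
        (∀ u v i, κ v = some i → u ≠ v → (G.Adj u v ↔ ∃ j, τ v ∈ I u i j)) →
        (∀ u v, κ u = none → κ v = none → u ≠ v → G.Adj u v) →
        ∃ l : V → List Bool, (∀ v, (l v).length ≤ K * Nat.log 2 (Fintype.card V)) ∧
          ∀ u v, u ≠ v → (G.Adj u v ↔ A (l u) (l v) = true) := by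
  classical
  obtain ⟨A, K, hA, h⟩ := implicit_of_fields (dec c r)
  refine ⟨A, K, hA, fun V _ G κ τ I hI h1 h2 => ?_⟩
  obtain ⟨l, hl, h3⟩ := h V (num κ τ I) (num_le κ τ I)
  refine ⟨l, hl, fun u v huv => ?_⟩
  rw [h3 u v huv]
  have key : ∀ x y : V, κ y ≠ none → x ≠ y → (G.Adj x y ↔
      ∃ i j, num κ τ I x (Fld.lo i j) ≤ num κ τ I y (Fld.rank i) ∧
        num κ τ I y (Fld.rank i) ≤ num κ τ I x (Fld.hi i j)) := by
    intro x y hy hxy
    obtain ⟨i, hi⟩ := Option.ne_none_iff_exists'.1 hy
    rw [h1 x y i hi hxy]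
    have er : ∀ i', num κ τ I y (Fld.rank i') = if κ y = some i' then rk κ τ y else 0 :=
      fun _ => rfl
    constructor
    · rintro ⟨j, hj⟩
      refine ⟨i, j, ?_⟩
      rw [er, if_pos hi]
      exact (mem_iff κ τ I hI hi j).1 hj
    · rintro ⟨i', j, ha, hb⟩
      rw [er] at ha hb
      by_cases hii : κ y = some i'
      · rw [if_pos hii] at ha hb
        have : i' = i := by
          rw [hi] at hii
          exact (Option.some.inj hii).symm
        subst this
        exact ⟨j, (mem_iff κ τ I hI hi j).2 ⟨ha, hb⟩⟩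
      · rw [if_neg hii] at ha
        exfalso
        have elo : num κ τ I x (Fld.lo i' j) = if h : (nb κ τ I x i' j).Nonempty then
          (nb κ τ I x i' j).inf' h (rk κ τ) else 1 := rfl
        rw [elo] at ha
        split_ifs at ha with hne
        · obtain ⟨w, hw, e⟩ := Finset.exists_mem_eq_inf' hne (rk κ τ)
          rw [e] at ha
          have := rk_pos κ τ w
          omega
        · omega
  have es : ∀ x, num κ τ I x Fld.side = if κ x = none then 0 else 1 := fun _ => rfl
  have ez : ∀ x, num κ τ I x Fld.zero = 0 := fun _ => rfl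
  unfold dec
  by_cases hv : κ v = none
  · by_cases hu : κ u = none
    · simp [es, ez, hu, hv, h2 u v hu hv huv]
    · have := key v u hu (Ne.symm huv)
      rw [G.adj_comm, this]
      simp [es, ez, hu, hv]
  · have := key u v hv huv
    rw [this]
    simp [es, ez, hv]

end Pool.Agent.ImpR
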